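import Pool.Agent.Y251.CL.Strong

/-!
Shifts of half-space charts, and compact sets from periodic points.
-/

open scoped Manifold ContDiff Topology
open Set

namespace Pool.Agent.Y251.CL

open Pool.Agent.H718R2.G

section

variable {n : ℕ} [NeZero n] {M : Type*} [TopologicalSpace M] [T2Space M]
    [ChartedSpace (V n) M] [IsManifold (𝓡 n) ∞ M]

theorem shift {φ : OpenPartialHomeomorph M (V n)} (hφ : φ ∈ IsManifold.maximalAtlas (𝓡 n) ∞ M)
    (hA : {v : V n | 0 ≤ v 0} ⊆ φ.target) (hcl : IsClosed (φ.symm '' {v : V n | 0 ≤ v 0}))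
    {T : ℝ} (hT : 0 ≤ T) :
    ∃ φ' ∈ IsManifold.maximalAtlas (𝓡 n) ∞ M, {v : V n | 0 ≤ v 0} ⊆ φ'.target ∧
      IsClosed (φ'.symm '' {v : V n | 0 ≤ v 0}) ∧
      φ.symm '' {v : V n | T ≤ v 0} = φ'.symm '' {v : V n | 0 ≤ v 0} := by
  set c : V n := EuclideanSpace.single 0 T with hc
  have hc0 : c 0 = T := by simp [c]
  set φ' : OpenPartialHomeomorph M (V n) := φ.transHomeomorph (Homeomorph.addRight c).symm with hφ'
  have hsymm : ∀ v, φ'.symm v = φ.symm (v + c) := fun v => rfl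
  have hfun : ∀ m, φ' m = φ m + -c := fun v => rfl
  have htar : ∀ v, v ∈ φ'.target ↔ v + c ∈ φ.target := fun v => Iff.rfl
  have hsrc : φ'.source = φ.source := rfl
  have hB : φ.symm '' {v : V n | T ≤ v 0} =
      φ.symm '' {v : V n | 0 ≤ v 0} ∩ (φ.source ∩ φ ⁻¹' {v : V n | v 0 < T})ᶜ := by
    ext m
    constructor
    · rintro ⟨v, hv, rfl⟩
      have hvA : v ∈ {v : V n | 0 ≤ v 0} := hT.trans hv
      refine ⟨⟨v, hvA, rfl⟩, fun h => ?_⟩
      have h1 : (φ (φ.symm v)) 0 < T := h.2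
      rw [φ.right_inv (hA hvA)] at h1
      exact absurd hv (not_le.2 h1)
    · rintro ⟨⟨v, hv, rfl⟩, h⟩
      refine ⟨v, ?_, rfl⟩
      by_contra h1
      refine h ⟨φ.map_target (hA hv), ?_⟩
      change (φ (φ.symm v)) 0 < T
      rw [φ.right_inv (hA hv)]
      exact not_le.1 h1
  have heq : φ.symm '' {v : V n | T ≤ v 0} = φ'.symm '' {v : V n | 0 ≤ v 0} := by
    ext m
    constructor
    · rintro ⟨v, hv, rfl⟩
      refine ⟨v - c, ?_, by rw [hsymm, sub_add_cancel]⟩
      change 0 ≤ v 0 - c 0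
      rw [hc0]
      have : T ≤ v 0 := hv
      linarith
    · rintro ⟨v, hv, rfl⟩
      refine ⟨v + c, ?_, by rw [hsymm]⟩
      change T ≤ v 0 + c 0
      rw [hc0]
      have : 0 ≤ v 0 := hv
      linarith
  refine ⟨φ', ?_, ?_, ?_, heq⟩
  · apply OpenPartialHomeomorph.mem_maximalAtlas_of_contMDiffOn
    · have h1 : ContMDiffOn (𝓡 n) (𝓡 n) ∞ ((fun v : V n => v + -c) ∘ φ) φ.source := by
        have h2 : ContMDiff (𝓡 n) (𝓡 n) ∞ (fun v : V n => v + -c) :=
          (contDiff_id.add contDiff_const).contMDiff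
        exact h2.comp_contMDiffOn (contMDiffOn_of_mem_maximalAtlas hφ)
      exact h1
    · have h1 : ContMDiffOn (𝓡 n) (𝓡 n) ∞ (φ.symm ∘ (fun v : V n => v + c)) φ'.target := by
        have h2 : ContMDiff (𝓡 n) (𝓡 n) ∞ (fun v : V n => v + c) :=
          (contDiff_id.add contDiff_const).contMDiff
        exact (contMDiffOn_symm_of_mem_maximalAtlas hφ).comp h2.contMDiffOn (fun v hv => hv)
      exact h1
  · intro v hv
    rw [htar]
    apply hA
    change 0 ≤ v 0 + c 0
    rw [hc0]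
    have : 0 ≤ v 0 := hv
    linarith
  · rw [← heq, hB]
    exact hcl.inter (φ.continuousOn.isOpen_inter_preimage φ.open_source
      (isOpen_lt coord_cont continuous_const)).isClosed_compl

end

theorem per_compact {M : Type*} [TopologicalSpace M] {G : M → M} {y : M} (h : IsPer G y) :
    ∃ C : Set M, IsCompact C ∧ MapsTo G C C ∧ y ∈ C := by
  obtain ⟨k, hk, hkx⟩ := h
  have hper : Function.IsPeriodicPt G k y := hkx
  refine ⟨range (fun m : ℕ => G^[m] y), ?_, ?_, ⟨0, rfl⟩⟩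
  · refine Set.Finite.isCompact (((Set.finite_lt_nat k).image (fun m : ℕ => G^[m] y)).subset ?_)
    rintro _ ⟨m, rfl⟩
    exact ⟨m % k, Nat.mod_lt _ (by omega), hper.iterate_mod_apply m⟩
  · rintro _ ⟨m, rfl⟩
    exact ⟨m + 1, by simp only [Function.iterate_succ_apply']⟩

theorem closure_orbit {M : Type*} [TopologicalSpace M] {G : M → M} (hG : Continuous G) (y : M) :
    MapsTo G (closure (range fun m : ℕ => G^[m] y)) (closure (range fun m : ℕ => G^[m] y)) := by
  apply MapsTo.closure _ hG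
  rintro _ ⟨m, rfl⟩
  exact ⟨m + 1, by simp only [Function.iterate_succ_apply']⟩

end Pool.Agent.Y251.CL
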