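import Pool.Agent.H718R2.G0

/-!
Project CL: Theorem N for compact sets.
-/

open scoped Topology ContDiff
open Set

namespace Pool.Agent.Y251.CL

open Pool.Agent.H718R2

/-- As `NonClosing`, for compact sets `O` instead of finite sets, with the neighbourhood
`{v | 23/4 < v 0}` of the recurrent point `a`. -/
def NonClosingC (n : ℕ) [NeZero n] : Prop :=
  ∃ (F : G.V n ≃ₜ G.V n) (a : G.V n) (ε : G.V n → ℝ), 6 ≤ a 0 ∧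
    ContDiff ℝ ∞ F ∧ ContDiff ℝ ∞ F.symm ∧ (∀ v : G.V n, v 0 ≤ 1 → F v = v) ∧
    (∀ δ : ℝ, 0 < δ → ∃ k : ℕ, 1 ≤ k ∧ ‖F^[k] a - a‖ < δ) ∧ Continuous ε ∧ (∀ v, 0 < ε v) ∧
    ∀ H : G.V n → G.V n, ContDiffOn ℝ 2 H {v : G.V n | 1 / 2 < v 0} →
      (∀ v : G.V n, 1 / 2 < v 0 → ∀ i : ℕ, i ≤ 2 →
        ‖iteratedFDeriv ℝ i H v - iteratedFDeriv ℝ i (F : G.V n → G.V n) v‖ < ε v) →
      ∀ O : Set (G.V n), IsCompact O → (∃ v ∈ O, 23 / 4 < v 0) → ¬ (∀ v ∈ O, 1 ≤ v 0 → H v ∈ O)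

end Pool.Agent.Y251.CL
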