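import Pool.Agent.Y251.CL.Strong
import Pool.Agent.Y251.CL.Stm2

/-!
Chart level to manifold level, for compact forward invariant sets.
-/

open scoped Manifold ContDiff Topology
open Set

namespace Pool.Agent.Y251.CL

open Pool.Agent.H718R2.G

section K4

set_option linter.unusedSectionVars false

variable {n : ℕ} [NeZero n] {M : Type*} [TopologicalSpace M] [T2Space M]
    [ChartedSpace (V n) M] [IsManifold (𝓡 n) ∞ M]

/-- strong localized counterexample -/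
theorem strongC {g₀ : DiffM n M ⊤}
    {φ : OpenPartialHomeomorph M (V n)} (hφ : φ ∈ IsManifold.maximalAtlas (𝓡 n) ∞ M)
    (hA : {v : V n | 0 ≤ v 0} ⊆ φ.target) (hcl : IsClosed (φ.symm '' {v : V n | 0 ≤ v 0}))
    (hg₀ : ∀ y ∈ φ.symm '' {v : V n | 0 ≤ v 0}, g₀ y = y) (hN : NonClosingC n) :
    ∃ (f : DiffM n M ⊤) (x : M) (D : StrongData n M),
      (∀ y ∉ φ.symm '' {v : V n | 0 ≤ v 0}, f y = g₀ y) ∧ IsRec f.toHomeomorph x ∧
      (∀ W ∈ 𝓝 x, ∃ k : ℕ, 1 ≤ k ∧ f^[k] x ∈ W) ∧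
      x ∈ interior (φ.symm '' {v : V n | 47 / 8 ≤ v 0}) ∧
      (∀ i, D.K i ⊆ φ.symm '' {v : V n | 0 ≤ v 0}) ∧
      Near2 D f f ∧
      ∀ G : M → M, ContMDiffOn (𝓡 n) (𝓡 n) 2 G (interior (φ.symm '' {v : V n | 0 ≤ v 0})) →
        Near2 D f G → ∀ C : Set M, IsCompact C → MapsTo G C C →
          Disjoint C (φ.symm '' {v : V n | 47 / 8 ≤ v 0}) := by
  obtain ⟨F, a, ε, ha, hF, hF', hid, hrec, hεc, hεp, hG⟩ := hN
  have hid' : ∀ v ∉ {v : V n | 0 ≤ v 0}, F v = v := by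
    intro v hv
    apply hid
    have : ¬ (0 ≤ v 0) := hv
    linarith [not_le.1 this]
  obtain ⟨f₁, hf1, hf2⟩ := transplant hφ hA hcl F hF hF' hid'
  have haA : a ∈ {v : V n | 0 ≤ v 0} := by show 0 ≤ a 0; linarith
  have hat : a ∈ φ.target := hA haA
  have hxs : φ.symm a ∈ φ.source := φ.map_target hat
  set f : DiffM n M ⊤ := f₁.trans g₀ with hf
  have hfe : ∀ y, f y = g₀ (f₁ y) := fun y => rfl
  have hft : ∀ v : V n, 0 ≤ v 0 → f (φ.symm v) = φ.symm (F v) := by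
    intro v hv
    rw [hfe, hf1 _ (φ.map_target (hA hv)), φ.right_inv (hA hv)]
    apply hg₀
    exact ⟨F v, F_half F hid hv, rfl⟩
  have hiter : ∀ k : ℕ, 0 ≤ (F^[k] a) 0 ∧ (f : M → M)^[k] (φ.symm a) = φ.symm (F^[k] a) := by
    intro k
    induction k with
    | zero => exact ⟨haA, rfl⟩
    | succ k ih =>
      rw [Function.iterate_succ_apply', Function.iterate_succ_apply', ih.2, hft _ ih.1]
      exact ⟨F_half F hid ih.1, rfl⟩
  have hrec2 : ∀ W ∈ 𝓝 (φ.symm a), ∃ k : ℕ, 1 ≤ k ∧ (f : M → M)^[k] (φ.symm a) ∈ W := by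
    intro W hW
    have hc : ContinuousAt φ.symm a := φ.continuousAt_symm hat
    have h1 : ∀ᶠ v in 𝓝 a, φ.symm v ∈ W := hc.eventually hW
    obtain ⟨δ, hδ, h2⟩ := Metric.eventually_nhds_iff.1 h1
    obtain ⟨k, hk1, hk2⟩ := hrec δ hδ
    refine ⟨k, hk1, ?_⟩
    rw [(hiter k).2]
    exact h2 (by rw [dist_eq_norm]; exact hk2)
  choose e' he1' he2' using exists_eps ε hεc hεp
  set e : ℕ → ℝ := fun m => min (e' m) (1 / 2) with he
  have he1 : ∀ m, 0 < e m := fun m => lt_min (he1' m) (by norm_num)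
  have he2 : ∀ m, ∀ v ∈ Cm n m, e m ≤ ε v := fun m v hv => (min_le_left _ _).trans (he2' m v hv)
  have he3 : ∀ m, e m ≤ 1 / 2 := fun m => min_le_right _ _
  have hCA : ∀ m, Cm n m ⊆ {v : V n | 0 ≤ v 0} := fun m => (Cm_sub_Om m).trans (Om_sub m)
  have hnear : Near2 (sd φ hφ hA hcl e he1) f f := by
    rintro m _ ⟨v, hv, rfl⟩
    refine ⟨?_, ?_⟩
    · rw [hft v (hCA m hv)]
      exact φ.map_target (hA (F_half F hid (hCA m hv)))
    · intro i _
      rw [sub_self, norm_zero]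
      exact he1 m
  refine ⟨f, φ.symm a, sd φ hφ hA hcl e he1, ?_, ?_, hrec2,
    mem_int hA (by norm_num) (by linarith), ?_, hnear, ?_⟩
  · intro y hy
    rw [hfe, hf2 y hy]
  · -- recurrence
    intro hemb
    obtain ⟨W, hW, hW'⟩ := hemb.isInducing.isOpen_iff.mp (isOpen_discrete ({0} : Set ℤ))
    have h0 : φ.symm a ∈ W := by
      have : (0 : ℤ) ∈ (fun m : ℤ => (f.toHomeomorph ^ m) (φ.symm a)) ⁻¹' W := by rw [hW']; rfl
      simpa using this
    obtain ⟨k, hk1, hk2⟩ := hrec2 W (hW.mem_nhds h0)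
    have h4 : (k : ℤ) ∈ (fun m : ℤ => (f.toHomeomorph ^ m) (φ.symm a)) ⁻¹' W := by
      show (f.toHomeomorph ^ (k : ℤ)) (φ.symm a) ∈ W
      rw [zpow_natCast, homeo_pow_apply]
      have h5 : ((f.toHomeomorph : M ≃ₜ M) : M → M) = f := rfl
      rw [h5]
      exact hk2
    rw [hW'] at h4
    have : (k : ℤ) = 0 := h4
    omega
  · rintro i _ ⟨v, hv, rfl⟩
    exact ⟨v, hCA _ hv, rfl⟩
  · intro g hgs2 hg C hC hCC
    rw [Set.disjoint_left]
    rintro _ hyC ⟨b, hb0, rfl⟩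
    have hb1 : 47 / 8 ≤ b 0 := hb0
    have hbt : b ∈ φ.target := hA (show 0 ≤ b 0 by linarith)
    have hbs : φ.symm b ∈ φ.source := φ.map_target hbt
    have hFge : ∀ v : V n, 1 ≤ v 0 → 1 ≤ F v 0 := by
      intro v hv
      by_contra h
      have h1 := hid (F v) (by linarith)
      rw [F.injective h1] at h
      exact h hv
    have hint : ∀ v : V n, 0 < v 0 → φ.symm v ∈ interior (φ.symm '' {v : V n | 0 ≤ v 0}) :=
      fun v hv => mem_int hA le_rfl hv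
    -- every point of the half space is in a piece
    have hpiece : ∀ v : V n, 1 / 2 ≤ v 0 → v ∈ Cm n ⌊‖v‖⌋₊ := by
      intro v hv
      exact ⟨hv, Nat.floor_le (norm_nonneg v), (Nat.lt_floor_add_one ‖v‖).le⟩
    have hgs : ∀ v : V n, 1 / 2 ≤ v 0 → g (φ.symm v) ∈ φ.source := by
      intro v hv
      exact (hg ⌊‖v‖⌋₊ (φ.symm v) ⟨v, hpiece v hv, rfl⟩).1
    have h2i : (2 : WithTop ℕ∞) ≤ ∞ := WithTop.coe_le_coe.mpr le_top
    have hclose : ∀ v : V n, 1 / 2 < v 0 → ∀ i : ℕ, i ≤ 2 →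
        ‖iteratedFDeriv ℝ i (φ ∘ g ∘ φ.symm) v - iteratedFDeriv ℝ i (F : V n → V n) v‖ <
          e ⌊‖v‖⌋₊ := by
      intro v hv i hi
      have hvt : v ∈ φ.target := hA (show 0 ≤ v 0 by linarith)
      have h1 := (hg ⌊‖v‖⌋₊ (φ.symm v) ⟨v, hpiece v hv.le, rfl⟩).2 i hi
      have h3 : iteratedFDeriv ℝ i (φ ∘ f ∘ φ.symm) v = iteratedFDeriv ℝ i (F : V n → V n) v := by
        apply Filter.EventuallyEq.eq_of_nhds
        apply Filter.EventuallyEq.iteratedFDeriv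
        have ho : IsOpen {v : V n | 0 < v 0} := isOpen_lt continuous_const coord_cont
        filter_upwards [ho.mem_nhds (show 0 < v 0 by linarith)] with w hw
        have hw' : 0 ≤ w 0 := le_of_lt hw
        simp only [Function.comp_apply]
        rw [hft w hw', φ.right_inv (hA (F_half F hid hw'))]
      have h4 : ‖iteratedFDeriv ℝ i (φ ∘ g ∘ φ.symm) (φ (φ.symm v))
          - iteratedFDeriv ℝ i (φ ∘ f ∘ φ.symm) (φ (φ.symm v))‖ < e ⌊‖v‖⌋₊ := h1
      rw [φ.right_inv hvt, h3] at h4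
      exact h4
    refine hG (φ ∘ g ∘ φ.symm) ?_ ?_ (φ '' (C ∩ φ.symm '' {v : V n | 0 ≤ v 0}))
      ?_ ?_ ?_
    · -- C^2
      intro v hv
      have hv' : 1 / 2 < v 0 := hv
      have hvt : v ∈ φ.target := hA (show 0 ≤ v 0 by linarith)
      have h1 : ContMDiffAt (𝓡 n) (𝓡 n) 2 φ.symm v :=
        ((contMDiffOn_symm_of_mem_maximalAtlas hφ v hvt).contMDiffAt
          (φ.open_target.mem_nhds hvt)).of_le h2i
      have h2 : ContMDiffAt (𝓡 n) (𝓡 n) 2 g (φ.symm v) :=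
        (hgs2 _ (hint v (by linarith))).contMDiffAt
          (isOpen_interior.mem_nhds (hint v (by linarith)))
      have h3 : ContMDiffAt (𝓡 n) (𝓡 n) 2 φ (g (φ.symm v)) :=
        ((contMDiffOn_of_mem_maximalAtlas hφ _ (hgs v hv'.le)).contMDiffAt
          (φ.open_source.mem_nhds (hgs v hv'.le))).of_le h2i
      have h4 : ContMDiffAt (𝓡 n) (𝓡 n) 2 (φ ∘ g ∘ φ.symm) v :=
        ContMDiffAt.comp v (g := φ) (f := g ∘ φ.symm) h3 (ContMDiffAt.comp v h2 h1)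
      exact (contMDiffAt_iff_contDiffAt.1 h4).contDiffWithinAt
    · intro v hv i hi
      exact (hclose v hv i hi).trans_le (he2 _ v (hpiece v (le_of_lt hv)))
    · refine (hC.inter_right hcl).image_of_continuousOn (φ.continuousOn.mono ?_)
      rintro _ ⟨-, ⟨v, hv, rfl⟩⟩
      exact φ.map_target (hA hv)
    · exact ⟨b, ⟨φ.symm b, ⟨hyC, ⟨b, (show (0 : ℝ) ≤ b 0 by linarith), rfl⟩⟩, φ.right_inv hbt⟩,
        by linarith⟩
    · rintro _ ⟨_, ⟨hzC, ⟨v, hv, rfl⟩⟩, rfl⟩ hv1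
      have hvt : v ∈ φ.target := hA hv
      rw [φ.right_inv hvt] at hv1 ⊢
      have hgz := hgs v (by linarith)
      have h0 := (hclose v (by linarith) 0 (by norm_num)).trans_le (he3 _)
      have h1 : ‖(φ ∘ g ∘ φ.symm) v - F v‖ < 1 / 2 := by
        have e1 : ‖(φ ∘ g ∘ φ.symm) v - F v‖ = ‖iteratedFDeriv ℝ 0 (φ ∘ g ∘ φ.symm) v -
            iteratedFDeriv ℝ 0 (F : V n → V n) v‖ := by
          have e2 : iteratedFDeriv ℝ 0 (φ ∘ g ∘ φ.symm) v -
            iteratedFDeriv ℝ 0 (F : V n → V n) v =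
            iteratedFDeriv ℝ 0 (fun w => (φ ∘ g ∘ φ.symm) w - F w) v := by
            ext m
            simp [iteratedFDeriv_zero_apply]
          rw [e2, norm_iteratedFDeriv_zero]
        rw [e1]; exact h0
      have h2 : |((φ ∘ g ∘ φ.symm) v - F v) 0| ≤ ‖(φ ∘ g ∘ φ.symm) v - F v‖ :=
        PiLp.norm_apply_le ((φ ∘ g ∘ φ.symm) v - F v) 0
      have h3 := hFge v hv1
      have h4 : ((φ ∘ g ∘ φ.symm) v - F v) 0 = (φ ∘ g ∘ φ.symm) v 0 - F v 0 := rfl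
      rw [h4] at h2
      have h5 : 0 ≤ (φ ∘ g ∘ φ.symm) v 0 := by
        have := (abs_lt.1 (h2.trans_lt h1)).1
        linarith
      refine ⟨g (φ.symm v), ⟨hCC hzC, ⟨φ (g (φ.symm v)), h5, φ.left_inv hgz⟩⟩, rfl⟩

end K4

end Pool.Agent.Y251.CL
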