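import Pool.Agent.H718R2.G0

/-!
Project CL (MP_1e8d1a_an): strong failure of the closing lemma on noncompact manifolds.
-/

open scoped Manifold ContDiff Topology
open Set

namespace Pool.Agent.Y251.CL

open Pool.Agent.H718R2.G

/-- UNC: near a recurrent non-periodic point there are uncountably many recurrent points -/
def S_UNC.{u} : Prop :=
  ∀ (X : Type u) [TopologicalSpace X] [T2Space X] [SecondCountableTopology X] [LocallyCompactSpace X]
    (f : X ≃ₜ X) (x : X) (N : Set X), (∀ W ∈ 𝓝 x, ∃ k : ℕ, 1 ≤ k ∧ (f : X → X)^[k] x ∈ W) →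
    (∀ k : ℕ, 1 ≤ k → (f : X → X)^[k] x ≠ x) → N ∈ 𝓝 x →
    ¬ {y | y ∈ N ∧ ∀ W ∈ 𝓝 y, ∃ k : ℕ, 1 ≤ k ∧ (f : X → X)^[k] y ∈ W}.Countable

/-- AVOID: half-space charts can be pushed off compact sets -/
def S_AVOID.{u} : Prop :=
  ∀ (n : ℕ) [NeZero n] (M : Type u) [TopologicalSpace M] [T2Space M] [ChartedSpace (V n) M]
    [IsManifold (𝓡 n) ∞ M] (K : Set M), IsCompact K → HalfSpaceChart n M →
    ∃ φ ∈ IsManifold.maximalAtlas (𝓡 n) ∞ M, {v : V n | 0 ≤ v 0} ⊆ φ.target ∧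
      IsClosed (φ.symm '' {v : V n | 0 ≤ v 0}) ∧ Disjoint (φ.symm '' {v : V n | 0 ≤ v 0}) K

end Pool.Agent.Y251.CL
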