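import Pool.Agent.H718R2.K7
import Pool.Agent.Y251.CL.StrongC
import Pool.Agent.Y251.CL.Shift
import Pool.Agent.Y77.CL.Avoid
import Pool.Agent.Y87.CL.Unc

/-!
Assembly.
-/

open scoped Manifold ContDiff Topology
open Set

namespace Pool.Agent.Y251.CL

open Pool.Agent.H718R2.G

/-- A `C^∞` diffeomorphism as an element of `Diff^r(M)`. -/
def ofTop {n : ℕ} {M : Type*} [TopologicalSpace M] [ChartedSpace (V n) M] (f : DiffM n M ⊤) (r : ℕ∞) :
    DiffM n M r where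
  toEquiv := f.toEquiv
  contMDiff_toFun := f.contMDiff_toFun.of_le (WithTop.coe_le_coe.mpr le_top)
  contMDiff_invFun := f.contMDiff_invFun.of_le (WithTop.coe_le_coe.mpr le_top)

/-- `H` is a properly embedded closed half-space of `M` -/
def IsHalfSpace (n : ℕ) [NeZero n] {M : Type*} [TopologicalSpace M] [ChartedSpace (V n) M]
    (H : Set M) : Prop :=
  ∃ φ ∈ IsManifold.maximalAtlas (𝓡 n) ∞ M, {v : V n | 0 ≤ v 0} ⊆ φ.target ∧
    IsClosed (φ.symm '' {v : V n | 0 ≤ v 0}) ∧ H = φ.symm '' {v : V n | 0 ≤ v 0}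

theorem near_of_mem {n : ℕ} {M : Type*} [TopologicalSpace M] [ChartedSpace (V n) M]
    {D : StrongData n M} {r : ℕ∞} {f g : DiffM n M r} (h : g ∈ strongNbhd D 2 f) :
    Near2 D f g := h

theorem main.{u} {n : ℕ} [NeZero n] (hN : NonClosingC n) {M : Type u} [TopologicalSpace M] [T2Space M]
    [SecondCountableTopology M] [ChartedSpace (V n) M] [IsManifold (𝓡 n) ∞ M]
    {H : Set M} (hH : IsHalfSpace n H) {g₀ : DiffM n M ⊤} (hg₀ : ∀ y ∈ H, g₀ y = y) :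
    ∃ (f : DiffM n M ⊤) (H' : Set M) (x : M) (D : StrongData n M),
      (∀ y ∉ H, f y = g₀ y) ∧ IsHalfSpace n H' ∧ H' ⊆ H ∧ x ∈ interior H' ∧
      IsRec f.toHomeomorph x ∧ (∀ W ∈ 𝓝 x, ∃ k : ℕ, 1 ≤ k ∧ f^[k] x ∈ W) ∧
      ¬ {y | y ∈ H' ∧ ∀ W ∈ 𝓝 y, ∃ k : ℕ, 1 ≤ k ∧ f^[k] y ∈ W}.Countable ∧
      (∀ i, D.K i ⊆ H) ∧ Near2 D f f ∧
      (∀ G : M → M, ContMDiffOn (𝓡 n) (𝓡 n) 2 G (interior H) → Near2 D f G →
        ∀ C : Set M, IsCompact C → MapsTo G C C → Disjoint C H') ∧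
      ∀ r : ℕ∞, 2 ≤ r → IsOpen[strongTop n M r] (strongNbhd D 2 (ofTop f r)) ∧
        ofTop f r ∈ strongNbhd D 2 (ofTop f r) ∧
        ∀ g ∈ strongNbhd D 2 (ofTop f r), ∀ y ∈ H', ¬ IsPer g y ∧
          ¬ IsCompact (closure (range fun k : ℕ => (g : M → M)^[k] y)) := by
  obtain ⟨φ, hφ, hA, hcl, rfl⟩ := hH
  obtain ⟨f, x, D, h1, h2, h3, h4, h5, h6, h7⟩ := strongC hφ hA hcl hg₀ hN
  obtain ⟨φ', hφ', hA', hcl', heq⟩ := shift hφ hA hcl (T := 47 / 8) (by norm_num)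
  set H' : Set M := φ.symm '' {v : V n | 47 / 8 ≤ v 0} with hH'
  have hno : ∀ G : M → M, ContMDiffOn (𝓡 n) (𝓡 n) 2 G (interior (φ.symm '' {v : V n | 0 ≤ v 0})) →
      Near2 D f G → ∀ y ∈ H', ¬ IsPer G y := by
    intro G hG hGn y hy hper
    obtain ⟨C, hC1, hC2, hC3⟩ := per_compact hper
    exact Set.disjoint_left.1 (h7 G hG hGn C hC1 hC2) hC3 hy
  have h2i : (2 : WithTop ℕ∞) ≤ ∞ := WithTop.coe_le_coe.mpr le_top
  have hfno : ∀ y ∈ H', ¬ IsPer f y :=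
    hno f ((f.contMDiff.of_le h2i).contMDiffOn) h6
  have : LocallyCompactSpace M := ChartedSpace.locallyCompactSpace (V n) M
  refine ⟨f, H', x, D, h1, ⟨φ', hφ', hA', hcl', heq⟩, ?_, h4, h2, h3, ?_, h5, h6, h7, ?_⟩
  · rintro _ ⟨v, hv, rfl⟩
    have hv' : 47 / 8 ≤ v 0 := hv
    exact ⟨v, (show (0 : ℝ) ≤ v 0 by linarith), rfl⟩
  · have hx : x ∈ H' := interior_subset h4
    exact Pool.Agent.Y87.CL.unc M f.toHomeomorph x H' h3
      (fun k hk hkx => hfno x hx ⟨k, hk, hkx⟩) (mem_interior_iff_mem_nhds.1 h4)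
  · intro r hr
    have h2r : (2 : WithTop ℕ∞) ≤ ((r : ℕ∞) : WithTop ℕ∞) := WithTop.coe_le_coe.mpr hr
    refine ⟨?_, h6, ?_⟩
    · refine TopologicalSpace.GenerateOpen.basic _ ⟨D, 2, ofTop f r, ?_, ?_, rfl⟩
      · exact_mod_cast hr
      · intro i y hy
        exact (h6 i y hy).1
    · intro g hg y hy
      have hg2 : ContMDiffOn (𝓡 n) (𝓡 n) 2 g (interior (φ.symm '' {v : V n | 0 ≤ v 0})) :=
        (g.contMDiff.of_le h2r).contMDiffOn
      refine ⟨hno g hg2 hg y hy, fun hc => ?_⟩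
      exact Set.disjoint_left.1 (h7 g hg2 hg _ hc (closure_orbit g.contMDiff.continuous y))
        (subset_closure ⟨0, rfl⟩) hy

theorem exists_half.{u} {n : ℕ} [NeZero n] {M : Type u} [TopologicalSpace M] [T2Space M]
    [SecondCountableTopology M] [ChartedSpace (V n) M] [IsManifold (𝓡 n) ∞ M] {p : M}
    (hp : ¬ IsCompact (connectedComponent p)) {K : Set M} (hK : IsCompact K) :
    ∃ H : Set M, IsHalfSpace n H ∧ Disjoint H K := by
  obtain ⟨φ, hφ, hA, hcl, hd⟩ := Pool.Agent.Y77.CL.avoid n M K hK (exists_halfSpaceChart (n := n) hp)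
  exact ⟨_, ⟨φ, hφ, hA, hcl, rfl⟩, hd⟩

theorem not_closing.{u} {n : ℕ} [NeZero n] (hN : NonClosingC n) {M : Type u} [TopologicalSpace M]
    [T2Space M] [SecondCountableTopology M] [ChartedSpace (V n) M] [IsManifold (𝓡 n) ∞ M] {p : M}
    (hp : ¬ IsCompact (connectedComponent p)) (r : ℕ∞) (hr : 2 ≤ r) : ¬ Closing n M r := by
  intro hcl
  obtain ⟨H, hH, -⟩ := exists_half (n := n) hp isCompact_empty
  obtain ⟨f, H', x, D, -, -, -, hx, hrec, -, -, -, -, -, h⟩ := main hN hH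
    (g₀ := Diffeomorph.refl (𝓡 n) M ∞) (fun y _ => rfl)
  obtain ⟨hU, hfU, hg⟩ := h r hr
  obtain ⟨g, hgU, hper⟩ := hcl (ofTop f r) x hrec _ hU hfU
  exact (hg g hgU x (interior_subset hx)).1 hper

end Pool.Agent.Y251.CL
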