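import Pool.Agent.Y251.CL.StrongC
import Pool.Agent.Y640.CLA.Stm

/-!
Project CL, `C^{1+α}` version: chart level to manifold level, statement.
-/

open scoped Manifold ContDiff Topology
open Set

namespace Pool.Agent.Y251.CL

open Pool.Agent.H718R2.G Pool.Agent.Y640.CLA

section
variable {n : ℕ} {M : Type*} [TopologicalSpace M] [ChartedSpace (V n) M]

/-- `G` is `C^{1+α}`-close to `f` on the compact sets `D.K i`: values and derivatives differ by less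
than `D.ε i`, and the difference of the derivatives is `α`-Hölder with constant `D.ε i` on `D.K i` (in
the charts `D.φ i`, `D.ψ i`) -/
def NearA (α : ℝ) (D : StrongData n M) (f G : M → M) : Prop :=
  ∀ i, (∀ x ∈ D.K i, G x ∈ (D.ψ i).source ∧
      ‖(D.ψ i ∘ G ∘ (D.φ i).symm) (D.φ i x) - (D.ψ i ∘ f ∘ (D.φ i).symm) (D.φ i x)‖ < D.ε i ∧
      ‖fderiv ℝ (D.ψ i ∘ G ∘ (D.φ i).symm) (D.φ i x) -
        fderiv ℝ (D.ψ i ∘ f ∘ (D.φ i).symm) (D.φ i x)‖ < D.ε i) ∧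
    ∀ x ∈ D.K i, ∀ y ∈ D.K i,
      ‖(fderiv ℝ (D.ψ i ∘ G ∘ (D.φ i).symm) (D.φ i x) -
          fderiv ℝ (D.ψ i ∘ f ∘ (D.φ i).symm) (D.φ i x)) -
        (fderiv ℝ (D.ψ i ∘ G ∘ (D.φ i).symm) (D.φ i y) -
          fderiv ℝ (D.ψ i ∘ f ∘ (D.φ i).symm) (D.φ i y))‖ ≤ D.ε i * ‖D.φ i x - D.φ i y‖ ^ α

end

/-- STRA: the `C^{1+α}` version of `strongC` (both kinds of closeness with the same data) -/
def S_STRA.{u} : Prop :=
  ∀ (n : ℕ) [NeZero n] (M : Type u) [TopologicalSpace M] [T2Space M] [ChartedSpace (V n) M]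
    [IsManifold (𝓡 n) ∞ M] (g₀ : DiffM n M ⊤) (φ : OpenPartialHomeomorph M (V n)) (α : ℝ),
    φ ∈ IsManifold.maximalAtlas (𝓡 n) ∞ M → {v : V n | 0 ≤ v 0} ⊆ φ.target →
    IsClosed (φ.symm '' {v : V n | 0 ≤ v 0}) →
    (∀ y ∈ φ.symm '' {v : V n | 0 ≤ v 0}, g₀ y = y) → 0 < α → α ≤ 1 → NonClosingA α n →
    ∃ (f : DiffM n M ⊤) (x : M) (D : StrongData n M),
      (∀ y ∉ φ.symm '' {v : V n | 0 ≤ v 0}, f y = g₀ y) ∧ IsRec f.toHomeomorph x ∧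
      (∀ W ∈ 𝓝 x, ∃ k : ℕ, 1 ≤ k ∧ f^[k] x ∈ W) ∧
      x ∈ interior (φ.symm '' {v : V n | 47 / 8 ≤ v 0}) ∧
      (∀ i, D.K i ⊆ φ.symm '' {v : V n | 0 ≤ v 0}) ∧
      NearA α D f f ∧ Near2 D f f ∧
      (∀ G : M → M, ContMDiffOn (𝓡 n) (𝓡 n) 1 G (interior (φ.symm '' {v : V n | 0 ≤ v 0})) →
        NearA α D f G → ∀ C : Set M, IsCompact C → MapsTo G C C →
          Disjoint C (φ.symm '' {v : V n | 47 / 8 ≤ v 0})) ∧
      ∀ G : M → M, ContMDiffOn (𝓡 n) (𝓡 n) 2 G (interior (φ.symm '' {v : V n | 0 ≤ v 0})) →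
        Near2 D f G → ∀ C : Set M, IsCompact C → MapsTo G C C →
          Disjoint C (φ.symm '' {v : V n | 47 / 8 ≤ v 0})

end Pool.Agent.Y251.CL
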