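import Pool.Agent.Y251.CL.Fin
import Pool.Agent.Y251.CL.Stm3

/-!
Assembly, `C^{1+α}` version.
-/

open scoped Manifold ContDiff Topology
open Set

namespace Pool.Agent.Y251.CL

open Pool.Agent.H718R2.G Pool.Agent.Y640.CLA

theorem mainA.{u} (hS : S_STRA.{u}) {n : ℕ} [NeZero n] {α : ℝ} (hα : 0 < α) (hα1 : α ≤ 1)
    (hN : NonClosingA α n) {M : Type u} [TopologicalSpace M] [T2Space M]
    [SecondCountableTopology M] [ChartedSpace (V n) M] [IsManifold (𝓡 n) ∞ M]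
    {H : Set M} (hH : IsHalfSpace n H) {g₀ : DiffM n M ⊤} (hg₀ : ∀ y ∈ H, g₀ y = y) :
    ∃ (f : DiffM n M ⊤) (H' : Set M) (x : M) (D : StrongData n M),
      (∀ y ∉ H, f y = g₀ y) ∧ IsHalfSpace n H' ∧ H' ⊆ H ∧ x ∈ interior H' ∧
      IsRec f.toHomeomorph x ∧ (∀ W ∈ 𝓝 x, ∃ k : ℕ, 1 ≤ k ∧ f^[k] x ∈ W) ∧
      ¬ {y | y ∈ H' ∧ ∀ W ∈ 𝓝 y, ∃ k : ℕ, 1 ≤ k ∧ f^[k] y ∈ W}.Countable ∧
      (∀ i, D.K i ⊆ H) ∧ NearA α D f f ∧ Near2 D f f ∧
      (∀ G : M → M, ContMDiffOn (𝓡 n) (𝓡 n) 1 G (interior H) → NearA α D f G →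
        ∀ C : Set M, IsCompact C → MapsTo G C C → Disjoint C H') ∧
      (∀ g : DiffM n M 1, NearA α D f g → ∀ y ∈ H', ¬ IsPer g y ∧
          ¬ IsCompact (closure (range fun k : ℕ => (g : M → M)^[k] y))) ∧
      ∀ r : ℕ∞, 2 ≤ r → IsOpen[strongTop n M r] (strongNbhd D 2 (ofTop f r)) ∧
        ofTop f r ∈ strongNbhd D 2 (ofTop f r) ∧
        ∀ g ∈ strongNbhd D 2 (ofTop f r), ∀ y ∈ H', ¬ IsPer g y ∧
          ¬ IsCompact (closure (range fun k : ℕ => (g : M → M)^[k] y)) := by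
  obtain ⟨φ, hφ, hA, hcl, rfl⟩ := hH
  obtain ⟨f, x, D, h1, h2, h3, h4, h5, h6a, h6, h7a, h7⟩ :=
    hS n M g₀ φ α hφ hA hcl hg₀ hα hα1 hN
  obtain ⟨φ', hφ', hA', hcl', heq⟩ := shift hφ hA hcl (T := 47 / 8) (by norm_num)
  set H' : Set M := φ.symm '' {v : V n | 47 / 8 ≤ v 0} with hH'
  have h2i : (2 : WithTop ℕ∞) ≤ ∞ := WithTop.coe_le_coe.mpr le_top
  have hper : ∀ G : M → M, Continuous G →
      (∀ C : Set M, IsCompact C → MapsTo G C C → Disjoint C H') →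
      ∀ y ∈ H', ¬ IsPer G y ∧ ¬ IsCompact (closure (range fun k : ℕ => G^[k] y)) := by
    intro G hGc hG y hy
    refine ⟨fun hper => ?_, fun hc => ?_⟩
    · obtain ⟨C, hC1, hC2, hC3⟩ := per_compact hper
      exact Set.disjoint_left.1 (hG C hC1 hC2) hC3 hy
    · exact Set.disjoint_left.1 (hG _ hc (closure_orbit hGc y)) (subset_closure ⟨0, rfl⟩) hy
  have hfno : ∀ y ∈ H', ¬ IsPer f y := fun y hy =>
    (hper f f.contMDiff.continuous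
      (h7 f ((f.contMDiff.of_le h2i).contMDiffOn) h6) y hy).1
  have : LocallyCompactSpace M := ChartedSpace.locallyCompactSpace (V n) M
  refine ⟨f, H', x, D, h1, ⟨φ', hφ', hA', hcl', heq⟩, ?_, h4, h2, h3, ?_, h5, h6a, h6, h7a, ?_, ?_⟩
  · rintro _ ⟨v, hv, rfl⟩
    have hv' : 47 / 8 ≤ v 0 := hv
    exact ⟨v, (show (0 : ℝ) ≤ v 0 by linarith), rfl⟩
  · have hx : x ∈ H' := interior_subset h4
    exact Pool.Agent.Y87.CL.unc M f.toHomeomorph x H' h3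
      (fun k hk hkx => hfno x hx ⟨k, hk, hkx⟩) (mem_interior_iff_mem_nhds.1 h4)
  · intro g hg
    exact hper g g.contMDiff.continuous (h7a g g.contMDiff.contMDiffOn hg)
  · intro r hr
    have h2r : (2 : WithTop ℕ∞) ≤ ((r : ℕ∞) : WithTop ℕ∞) := WithTop.coe_le_coe.mpr hr
    refine ⟨?_, h6, ?_⟩
    · refine TopologicalSpace.GenerateOpen.basic _ ⟨D, 2, ofTop f r, ?_, ?_, rfl⟩
      · exact_mod_cast hr
      · intro i y hy
        exact (h6 i y hy).1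
    · intro g hg
      exact hper g g.contMDiff.continuous (h7 g ((g.contMDiff.of_le h2r).contMDiffOn) hg)

end Pool.Agent.Y251.CL
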