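import Pool.Agent.H718R2.K6d
import Pool.Agent.Y251.CL.Stm

/-!
Theorem N with an explicit neighbourhood: perturbed maps have no periodic point in a half-space
(adaptation of `H718R2/K6d`).
-/

open scoped Topology ContDiff
open Set

namespace Pool.Agent.Y251.CL

open Pool.Agent.H718R2

/-- As `NonClosing`, but the neighbourhood of the recurrent point `a` is the half-space
`{v | 23/4 < v 0}`. -/
def NonClosingH (n : ℕ) [NeZero n] : Prop :=
  ∃ (F : G.V n ≃ₜ G.V n) (a : G.V n) (ε : G.V n → ℝ), 6 ≤ a 0 ∧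
    ContDiff ℝ ∞ F ∧ ContDiff ℝ ∞ F.symm ∧ (∀ v : G.V n, v 0 ≤ 1 → F v = v) ∧
    (∀ δ : ℝ, 0 < δ → ∃ k : ℕ, 1 ≤ k ∧ ‖F^[k] a - a‖ < δ) ∧ Continuous ε ∧ (∀ v, 0 < ε v) ∧
    ∀ H : G.V n → G.V n, ContDiffOn ℝ 2 H {v : G.V n | 1 / 2 < v 0} →
      (∀ v : G.V n, 1 / 2 < v 0 → ∀ i : ℕ, i ≤ 2 →
        ‖iteratedFDeriv ℝ i H v - iteratedFDeriv ℝ i (F : G.V n → G.V n) v‖ < ε v) →
      ∀ O : Set (G.V n), O.Finite → (∃ v ∈ O, 23 / 4 < v 0) → ¬ (∀ v ∈ O, 1 ≤ v 0 → H v ∈ O)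

/-- Theorem N -/
theorem nonClosingH (n : ℕ) [NeZero n] (hn : 3 ≤ n) : NonClosingH n := by
  obtain ⟨m, rfl⟩ := Nat.exists_eq_add_of_le' hn
  obtain ⟨Fh, ε, hF, hF', hF5, hrec, hε, hε0, hmain⟩ := prod_main (G.V m)
  set L := LC m with hL
  set c0 : E × G.V m := ((0, 0, 6), 0) with hc0
  -- the affine change of coordinates
  set T : G.V (m + 3) ≃ₜ E × G.V m := L.toHomeomorph.trans (Homeomorph.addRight (-c0)) with hT
  have hTe : ∀ v, T v = L v - c0 := fun v => by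
    simp [hT, sub_eq_add_neg]
  have hTs : ∀ z, T.symm z = L.symm (z + c0) := fun z => by
    rw [Homeomorph.symm_apply_eq, hTe]; simp
  have hTξ : ∀ v, (T v).1.2.2 = v 0 - 6 := by
    intro v
    rw [hTe]
    change (L v).1.2.2 - 6 = _
    rw [hL, LC_xi]
  have hTξ' : ∀ z, T.symm z 0 = z.1.2.2 + 6 := by
    intro z
    have := hTξ (T.symm z)
    rw [Homeomorph.apply_symm_apply] at this
    linarith
  have hTc : ContDiff ℝ (⊤ : ℕ∞) T := by
    have : (T : G.V (m + 3) → E × G.V m) = fun v => L v - c0 := funext hTe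
    rw [this]
    exact L.contDiff.sub contDiff_const
  have hTc' : ContDiff ℝ (⊤ : ℕ∞) T.symm := by
    have : (T.symm : E × G.V m → G.V (m + 3)) = fun z => L.symm (z + c0) := funext hTs
    rw [this]
    exact L.symm.contDiff.comp (contDiff_id.add contDiff_const)
  set F : G.V (m + 3) ≃ₜ G.V (m + 3) := (T.trans Fh).trans T.symm with hFdef
  have hFe : ∀ v, F v = T.symm (Fh (T v)) := fun v => rfl
  have hFi : ∀ k v, F^[k] v = T.symm (Fh^[k] (T v)) := by
    intro k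
    induction k with
    | zero => intro v; simp
    | succ k ih =>
      intro v
      rw [Function.iterate_succ_apply, ih, Function.iterate_succ_apply, hFe,
        Homeomorph.apply_symm_apply]
  set K : ℝ := 1 + ‖(L : G.V (m + 3) →L[ℝ] E × G.V m)‖ *
    (1 + ‖(L.symm : E × G.V m →L[ℝ] G.V (m + 3))‖) ^ 2 with hK
  have hK1 : 1 ≤ K := by
    have : 0 ≤ ‖(L : G.V (m + 3) →L[ℝ] E × G.V m)‖ *
      (1 + ‖(L.symm : E × G.V m →L[ℝ] G.V (m + 3))‖) ^ 2 := by positivity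
    linarith
  have hF2 : ContDiff ℝ 2 F := by
    have h2 : (2 : WithTop ℕ∞) ≤ ((⊤ : ℕ∞) : WithTop ℕ∞) :=
      WithTop.coe_le_coe.mpr (le_top : (2 : ℕ∞) ≤ ⊤)
    exact ((hTc'.comp (hF.comp hTc))).of_le h2
  refine ⟨F, T.symm 0, fun v => ε (T v) / K, ?_, ?_, ?_, ?_, ?_, ?_, ?_, ?_⟩
  · rw [hTξ']; simp
  · exact hTc'.comp (hF.comp hTc)
  · exact hTc'.comp (hF'.comp hTc)
  · intro v hv
    rw [hFe, hF5 _ (by rw [hTξ]; linarith), Homeomorph.symm_apply_apply]
  · intro δ hδ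
    have hcont : Filter.Tendsto T.symm (𝓝 0) (𝓝 (T.symm 0)) := T.symm.continuous.continuousAt
    rw [Metric.tendsto_nhds_nhds] at hcont
    obtain ⟨η, hη, h⟩ := hcont δ hδ
    obtain ⟨k, hk, hk'⟩ := hrec η hη
    refine ⟨k, hk, ?_⟩
    rw [hFi, Homeomorph.apply_symm_apply, ← dist_eq_norm]
    apply h
    rw [dist_zero_right]
    exact hk'
  · exact (hε.comp T.continuous).div_const _
  · intro v
    have := hε0 (T v)
    positivity
  · rintro g hG hGc O hO ⟨v₀, hv₀, hv₀'⟩ hinv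
    have hGop : IsOpen {v : G.V (m + 3) | 1 / 2 < v 0} := by
      apply isOpen_lt continuous_const
      fun_prop
    set Gh : E × G.V m → E × G.V m := fun z => L (g (L.symm (z + c0))) - c0 with hGh
    have hGhT : ∀ z, Gh z = T (g (T.symm z)) := by
      intro z
      rw [hTe, hTs]
    have hmaps : MapsTo T.symm {z : E × G.V m | -(11 / 2) < z.1.2.2} {v : G.V (m + 3) | 1 / 2 < v 0} := by
      intro z hz
      rw [mem_ofPred_eq] at hz ⊢
      rw [hTξ']; linarith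
    have hso : IsOpen {z : E × G.V m | -(11 / 2) < z.1.2.2} := by
      apply isOpen_lt continuous_const
      fun_prop
    have h2 : (2 : WithTop ℕ∞) ≤ ((⊤ : ℕ∞) : WithTop ℕ∞) :=
      WithTop.coe_le_coe.mpr (le_top : (2 : ℕ∞) ≤ ⊤)
    have hGhs : ContDiffOn ℝ 2 Gh {z : E × G.V m | -(11 / 2) < z.1.2.2} := by
      have : Gh = T ∘ (g ∘ T.symm) := funext hGhT
      rw [this]
      exact (hTc.of_le h2).comp_contDiffOn (hG.comp (hTc'.of_le h2).contDiffOn hmaps)
    refine hmain Gh hGhs ?_ (T '' O) (hO.image _) ⟨T v₀, ⟨v₀, hv₀, rfl⟩, by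
      rw [hTξ]; linarith⟩ ?_
    · intro z hz i hi
      have hi2 : (i : WithTop ℕ∞) ≤ 2 := by exact_mod_cast hi
      set v := L.symm (z + c0) with hv
      have hvz : v = T.symm z := (hTs z).symm
      have hv1 : v ∈ {v : G.V (m + 3) | 1 / 2 < v 0} := by rw [hvz]; exact hmaps hz
      have h1 : iteratedFDeriv ℝ i Gh z - iteratedFDeriv ℝ i (Fh : E × G.V m → E × G.V m) z =
          iteratedFDeriv ℝ i (fun z => Gh z - Fh z) z :=
        (iteratedFDeriv_sub_apply ((hGhs.contDiffAt (hso.mem_nhds hz)).of_le hi2)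
          (((hF.of_le h2).contDiffAt).of_le hi2)).symm
      have h3 : (fun z => Gh z - Fh z) = fun z => L ((fun v => g v - F v) (L.symm (z + c0))) := by
        funext y
        simp only
        have e1 : F (L.symm (y + c0)) = L.symm (Fh y + c0) := by
          rw [← hTs, hFe, Homeomorph.apply_symm_apply, hTs]
        rw [e1, map_sub, ContinuousLinearEquiv.apply_symm_apply]
        simp only [hGh]
        abel
      rw [h1, h3]
      refine lt_of_le_of_lt (transport_bd L c0 (fun v => g v - F v) z i) ?_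
      have h4 : iteratedFDeriv ℝ i (fun v => g v - F v) v =
          iteratedFDeriv ℝ i g v - iteratedFDeriv ℝ i (F : G.V (m + 3) → G.V (m + 3)) v :=
        iteratedFDeriv_sub_apply ((hG.contDiffAt (hGop.mem_nhds hv1)).of_le hi2)
          (hF2.contDiffAt.of_le hi2)
      rw [← hv, h4]
      have h5 := hGc v hv1 i hi
      have h6 : T v = z := by rw [hvz]; simp
      simp only [h6] at h5
      have h7 : ‖(L.symm : E × G.V m →L[ℝ] G.V (m + 3))‖ ^ i ≤
          (1 + ‖(L.symm : E × G.V m →L[ℝ] G.V (m + 3))‖) ^ 2 := by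
        calc _ ≤ (1 + ‖(L.symm : E × G.V m →L[ℝ] G.V (m + 3))‖) ^ i :=
              pow_le_pow_left₀ (norm_nonneg _) (by linarith [norm_nonneg (L.symm : E × G.V m →L[ℝ] G.V (m + 3))]) i
          _ ≤ _ := pow_le_pow_right₀ (by linarith [norm_nonneg (L.symm : E × G.V m →L[ℝ] G.V (m + 3))]) hi
      set N := ‖iteratedFDeriv ℝ i g v - iteratedFDeriv ℝ i (F : G.V (m + 3) → G.V (m + 3)) v‖ with hN
      have hN0 : 0 ≤ N := norm_nonneg _
      calc ‖(L : G.V (m + 3) →L[ℝ] E × G.V m)‖ * (N * ‖(L.symm : E × G.V m →L[ℝ] G.V (m + 3))‖ ^ i)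
          ≤ ‖(L : G.V (m + 3) →L[ℝ] E × G.V m)‖ * (N * (1 + ‖(L.symm : E × G.V m →L[ℝ] G.V (m + 3))‖) ^ 2) := by
            gcongr
        _ ≤ N * K := by rw [hK]; nlinarith
        _ < ε z / K * K := mul_lt_mul_of_pos_right h5 (by linarith)
        _ = ε z := div_mul_cancel₀ _ (by linarith)
    · rintro _ ⟨v, hv, rfl⟩ hz
      rw [hTξ] at hz
      refine ⟨g v, hinv v hv (by linarith), ?_⟩
      rw [hGhT, Homeomorph.symm_apply_apply]



end Pool.Agent.Y251.CL
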