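import Pool.Agent.H718R2.G0
import Pool.Agent.H718R2.K0
import Pool.Agent.Y251.CL.NCH

/-!
A half-space chart and `NonClosing n` give a strong, localized counterexample to the closing lemma
(adaptation of `H718R2/K4`): the map is prescribed outside of the half-space, and the perturbed maps
are arbitrary maps outside of the half-space.
-/

open scoped Manifold ContDiff Topology
open Set

namespace Pool.Agent.Y251.CL

open Pool.Agent.H718R2.G

/-- `G` is `C²`-close to `f` on the compact sets `D.K i`, in the sense of the data `D` -/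
def Near2 {n : ℕ} {M : Type*} [TopologicalSpace M] [ChartedSpace (V n) M] (D : StrongData n M)
    (f G : M → M) : Prop :=
  ∀ i, ∀ x ∈ D.K i, G x ∈ (D.ψ i).source ∧ ∀ m : ℕ, m ≤ 2 →
    ‖iteratedFDeriv ℝ m (D.ψ i ∘ G ∘ (D.φ i).symm) (D.φ i x)
      - iteratedFDeriv ℝ m (D.ψ i ∘ f ∘ (D.φ i).symm) (D.φ i x)‖ < D.ε i

section K4

set_option linter.unusedSectionVars false

variable {n : ℕ} [NeZero n] {M : Type*} [TopologicalSpace M] [T2Space M]
    [ChartedSpace (V n) M] [IsManifold (𝓡 n) ∞ M]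

/-- closed half-annuli -/
def Cm (n : ℕ) [NeZero n] (m : ℕ) : Set (V n) :=
  {v | 1 / 2 ≤ v 0 ∧ (m : ℝ) ≤ ‖v‖ ∧ ‖v‖ ≤ m + 1}

/-- open enlarged half-annuli -/
def Om (n : ℕ) [NeZero n] (m : ℕ) : Set (V n) :=
  {v | 1 / 4 < v 0 ∧ (m : ℝ) - 1 < ‖v‖ ∧ ‖v‖ < m + 2}

lemma Cm_sub_Om (m : ℕ) : Cm n m ⊆ Om n m := by
  intro v hv
  obtain ⟨h1, h2, h3⟩ := hv
  exact ⟨by linarith, by linarith, by linarith⟩

lemma coord_cont : Continuous (fun v : V n => v 0) :=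
  (EuclideanSpace.proj (0 : Fin n) : V n →L[ℝ] ℝ).continuous

lemma Om_open (m : ℕ) : IsOpen (Om n m) := by
  have h1 : IsOpen {v : V n | 1 / 4 < v 0} := isOpen_lt continuous_const coord_cont
  have h2 : IsOpen {v : V n | (m : ℝ) - 1 < ‖v‖} := isOpen_lt continuous_const continuous_norm
  have h3 : IsOpen {v : V n | ‖v‖ < (m : ℝ) + 2} := isOpen_lt continuous_norm continuous_const
  exact h1.inter (h2.inter h3)

lemma Cm_compact (m : ℕ) : IsCompact (Cm n m) := by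
  have h1 : IsClosed {v : V n | 1 / 2 ≤ v 0} := isClosed_le continuous_const coord_cont
  have h2 : IsClosed {v : V n | (m : ℝ) ≤ ‖v‖} := isClosed_le continuous_const continuous_norm
  have h3 : IsClosed {v : V n | ‖v‖ ≤ (m : ℝ) + 1} := isClosed_le continuous_norm continuous_const
  refine Metric.isCompact_of_isClosed_isBounded (h1.inter (h2.inter h3)) ?_
  refine (Metric.isBounded_closedBall (x := (0 : V n)) (r := (m : ℝ) + 1)).subset ?_
  intro v hv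
  rw [mem_closedBall_zero_iff]
  exact hv.2.2

lemma Om_sub (m : ℕ) : Om n m ⊆ {v : V n | 0 ≤ v 0} := by
  intro v hv
  have := hv.1
  show 0 ≤ v 0
  linarith

lemma dom_open (φ : OpenPartialHomeomorph M (V n)) (m : ℕ) :
    IsOpen (φ.source ∩ φ ⁻¹' (Om n m)) :=
  φ.continuousOn.isOpen_inter_preimage φ.open_source (Om_open m)

lemma dom_source (φ : OpenPartialHomeomorph M (V n)) (m : ℕ) :
    (φ.restr (φ.source ∩ φ ⁻¹' (Om n m))).source = φ.source ∩ φ ⁻¹' (Om n m) := by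
  rw [φ.restr_source' _ (dom_open φ m), ← inter_assoc, inter_self]

lemma sd_lf (φ : OpenPartialHomeomorph M (V n))
    (hcl : IsClosed (φ.symm '' {v : V n | 0 ≤ v 0})) (hA : {v : V n | 0 ≤ v 0} ⊆ φ.target) :
    LocallyFinite fun m : ℕ => (φ.restr (φ.source ∩ φ ⁻¹' (Om n m))).source := by
  intro y
  by_cases hy : y ∈ φ.symm '' {v : V n | 0 ≤ v 0}
  · have hys : y ∈ φ.source := by
      obtain ⟨v, hv, rfl⟩ := hy
      exact φ.map_target (hA hv)
    refine ⟨φ.source ∩ φ ⁻¹' (Metric.ball 0 (‖φ y‖ + 1)),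
      (φ.continuousOn.isOpen_inter_preimage φ.open_source Metric.isOpen_ball).mem_nhds
        ⟨hys, by simp⟩, ?_⟩
    refine (Set.finite_lt_nat ⌈‖φ y‖ + 2⌉₊).subset ?_
    rintro m ⟨z, hz1, hz2⟩
    simp only [dom_source] at hz1
    have h1 : (m : ℝ) - 1 < ‖φ z‖ := hz1.2.2.1
    have h2 : ‖φ z‖ < ‖φ y‖ + 1 := by
      have := hz2.2
      rwa [mem_preimage, mem_ball_zero_iff] at this
    show m < _
    rw [Nat.lt_ceil]
    linarith
  · refine ⟨(φ.symm '' {v : V n | 0 ≤ v 0})ᶜ, hcl.isOpen_compl.mem_nhds hy, ?_⟩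
    convert Set.finite_empty (α := ℕ)
    rw [Set.eq_empty_iff_forall_notMem]
    rintro m ⟨z, hz1, hz2⟩
    simp only [dom_source] at hz1
    exact hz2 ⟨φ z, Om_sub m hz1.2, φ.left_inv hz1.1⟩

/-- the neighbourhood data -/
noncomputable def sd (φ : OpenPartialHomeomorph M (V n))
    (hφ : φ ∈ IsManifold.maximalAtlas (𝓡 n) ∞ M)
    (hA : {v : V n | 0 ≤ v 0} ⊆ φ.target) (hcl : IsClosed (φ.symm '' {v : V n | 0 ≤ v 0}))
    (e : ℕ → ℝ) (he : ∀ m, 0 < e m) : StrongData n M where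
  ι := ℕ
  φ m := φ.restr (φ.source ∩ φ ⁻¹' (Om n m))
  ψ _ := φ
  K m := φ.symm '' (Cm n m)
  ε := e
  φ_mem m := restr_mem_maximalAtlas (contDiffGroupoid ∞ (𝓡 n)) hφ (dom_open φ m)
  ψ_mem _ := hφ
  lf := sd_lf φ hcl hA
  compact m := (Cm_compact m).image_of_continuousOn
    (φ.continuousOn_symm.mono (((Cm_sub_Om m).trans (Om_sub m)).trans hA))
  sub m := by
    rw [dom_source]
    rintro _ ⟨v, hv, rfl⟩
    have hvt : v ∈ φ.target := hA (Om_sub m (Cm_sub_Om m hv))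
    refine ⟨φ.map_target hvt, ?_⟩
    rw [mem_preimage, φ.right_inv hvt]
    exact Cm_sub_Om m hv
  pos := he

lemma exists_eps (ε : V n → ℝ) (hε : Continuous ε) (hpos : ∀ v, 0 < ε v) (m : ℕ) :
    ∃ e : ℝ, 0 < e ∧ ∀ v ∈ Cm n m, e ≤ ε v := by
  obtain ⟨v₀, -, hv₀⟩ := (isCompact_closedBall (0 : V n) ((m : ℝ) + 1)).exists_isMinOn
    ⟨0, by simp; positivity⟩ hε.continuousOn
  refine ⟨ε v₀, hpos v₀, ?_⟩
  intro v hv
  exact hv₀ (by rw [mem_closedBall_zero_iff]; exact hv.2.2)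

lemma homeo_pow_apply {X : Type*} [TopologicalSpace X] (f : X ≃ₜ X) (k : ℕ) (x : X) :
    (f ^ k) x = (f : X → X)^[k] x := by
  induction k generalizing x with
  | zero => simp
  | succ k ih => rw [pow_succ, Homeomorph.mul_apply, ih, Function.iterate_succ_apply]

lemma F_half (F : V n ≃ₜ V n) (hid : ∀ v : V n, v 0 ≤ 1 → F v = v) {v : V n} (hv : 0 ≤ v 0) :
    0 ≤ F v 0 := by
  by_contra h
  have h1 := hid (F v) (by linarith)
  rw [F.injective h1] at h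
  exact h hv

lemma mem_int {φ : OpenPartialHomeomorph M (V n)} (hA : {v : V n | 0 ≤ v 0} ⊆ φ.target) {T : ℝ}
    (hT : 0 ≤ T) {v : V n} (hv : T < v 0) :
    φ.symm v ∈ interior (φ.symm '' {v : V n | T ≤ v 0}) := by
  rw [mem_interior_iff_mem_nhds]
  have hvt : v ∈ φ.target := hA (show 0 ≤ v 0 by linarith)
  have hvs : φ.symm v ∈ φ.source := φ.map_target hvt
  have h1 : φ.source ∩ φ ⁻¹' {v : V n | T < v 0} ∈ 𝓝 (φ.symm v) := by
    apply Filter.inter_mem (φ.open_source.mem_nhds hvs)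
    apply (φ.continuousAt hvs).preimage_mem_nhds
    rw [φ.right_inv hvt]
    exact (isOpen_lt continuous_const coord_cont).mem_nhds hv
  refine Filter.mem_of_superset h1 ?_
  rintro y ⟨hy1, hy2⟩
  exact ⟨φ y, (show T ≤ (φ y) 0 from le_of_lt hy2), φ.left_inv hy1⟩

/-- strong localized counterexample -/
theorem strong {g₀ : DiffM n M ⊤}
    {φ : OpenPartialHomeomorph M (V n)} (hφ : φ ∈ IsManifold.maximalAtlas (𝓡 n) ∞ M)
    (hA : {v : V n | 0 ≤ v 0} ⊆ φ.target) (hcl : IsClosed (φ.symm '' {v : V n | 0 ≤ v 0}))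
    (hg₀ : ∀ y ∈ φ.symm '' {v : V n | 0 ≤ v 0}, g₀ y = y) (hN : NonClosingH n) :
    ∃ (f : DiffM n M ⊤) (x : M) (D : StrongData n M),
      (∀ y ∉ φ.symm '' {v : V n | 0 ≤ v 0}, f y = g₀ y) ∧ IsRec f.toHomeomorph x ∧
      (∀ W ∈ 𝓝 x, ∃ k : ℕ, 1 ≤ k ∧ f^[k] x ∈ W) ∧
      x ∈ interior (φ.symm '' {v : V n | 47 / 8 ≤ v 0}) ∧
      (∀ i, D.K i ⊆ φ.symm '' {v : V n | 0 ≤ v 0}) ∧
      Near2 D f f ∧
      ∀ G : M → M, ContMDiffOn (𝓡 n) (𝓡 n) 2 G (interior (φ.symm '' {v : V n | 0 ≤ v 0})) →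
        Near2 D f G → ∀ y ∈ φ.symm '' {v : V n | 47 / 8 ≤ v 0}, ¬ IsPer G y := by
  obtain ⟨F, a, ε, ha, hF, hF', hid, hrec, hεc, hεp, hG⟩ := hN
  have hid' : ∀ v ∉ {v : V n | 0 ≤ v 0}, F v = v := by
    intro v hv
    apply hid
    have : ¬ (0 ≤ v 0) := hv
    linarith [not_le.1 this]
  obtain ⟨f₁, hf1, hf2⟩ := transplant hφ hA hcl F hF hF' hid'
  have haA : a ∈ {v : V n | 0 ≤ v 0} := by show 0 ≤ a 0; linarith
  have hat : a ∈ φ.target := hA haA
  have hxs : φ.symm a ∈ φ.source := φ.map_target hat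
  set f : DiffM n M ⊤ := f₁.trans g₀ with hf
  have hfe : ∀ y, f y = g₀ (f₁ y) := fun y => rfl
  have hft : ∀ v : V n, 0 ≤ v 0 → f (φ.symm v) = φ.symm (F v) := by
    intro v hv
    rw [hfe, hf1 _ (φ.map_target (hA hv)), φ.right_inv (hA hv)]
    apply hg₀
    exact ⟨F v, F_half F hid hv, rfl⟩
  have hiter : ∀ k : ℕ, 0 ≤ (F^[k] a) 0 ∧ (f : M → M)^[k] (φ.symm a) = φ.symm (F^[k] a) := by
    intro k
    induction k with
    | zero => exact ⟨haA, rfl⟩
    | succ k ih =>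
      rw [Function.iterate_succ_apply', Function.iterate_succ_apply', ih.2, hft _ ih.1]
      exact ⟨F_half F hid ih.1, rfl⟩
  have hrec2 : ∀ W ∈ 𝓝 (φ.symm a), ∃ k : ℕ, 1 ≤ k ∧ (f : M → M)^[k] (φ.symm a) ∈ W := by
    intro W hW
    have hc : ContinuousAt φ.symm a := φ.continuousAt_symm hat
    have h1 : ∀ᶠ v in 𝓝 a, φ.symm v ∈ W := hc.eventually hW
    obtain ⟨δ, hδ, h2⟩ := Metric.eventually_nhds_iff.1 h1
    obtain ⟨k, hk1, hk2⟩ := hrec δ hδ
    refine ⟨k, hk1, ?_⟩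
    rw [(hiter k).2]
    exact h2 (by rw [dist_eq_norm]; exact hk2)
  choose e he1 he2 using exists_eps ε hεc hεp
  have hCA : ∀ m, Cm n m ⊆ {v : V n | 0 ≤ v 0} := fun m => (Cm_sub_Om m).trans (Om_sub m)
  have hnear : Near2 (sd φ hφ hA hcl e he1) f f := by
    rintro m _ ⟨v, hv, rfl⟩
    refine ⟨?_, ?_⟩
    · rw [hft v (hCA m hv)]
      exact φ.map_target (hA (F_half F hid (hCA m hv)))
    · intro i _
      rw [sub_self, norm_zero]
      exact he1 m
  refine ⟨f, φ.symm a, sd φ hφ hA hcl e he1, ?_, ?_, hrec2,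
    mem_int hA (by norm_num) (by linarith), ?_, hnear, ?_⟩
  · intro y hy
    rw [hfe, hf2 y hy]
  · -- recurrence
    intro hemb
    obtain ⟨W, hW, hW'⟩ := hemb.isInducing.isOpen_iff.mp (isOpen_discrete ({0} : Set ℤ))
    have h0 : φ.symm a ∈ W := by
      have : (0 : ℤ) ∈ (fun m : ℤ => (f.toHomeomorph ^ m) (φ.symm a)) ⁻¹' W := by rw [hW']; rfl
      simpa using this
    obtain ⟨k, hk1, hk2⟩ := hrec2 W (hW.mem_nhds h0)
    have h4 : (k : ℤ) ∈ (fun m : ℤ => (f.toHomeomorph ^ m) (φ.symm a)) ⁻¹' W := by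
      show (f.toHomeomorph ^ (k : ℤ)) (φ.symm a) ∈ W
      rw [zpow_natCast, homeo_pow_apply]
      have h5 : ((f.toHomeomorph : M ≃ₜ M) : M → M) = f := rfl
      rw [h5]
      exact hk2
    rw [hW'] at h4
    have : (k : ℤ) = 0 := h4
    omega
  · rintro i _ ⟨v, hv, rfl⟩
    exact ⟨v, hCA _ hv, rfl⟩
  · rintro g hgs2 hg _ ⟨b, hb0, rfl⟩ hper
    have hb1 : 47 / 8 ≤ b 0 := hb0
    have hbt : b ∈ φ.target := hA (show 0 ≤ b 0 by linarith)
    have hbs : φ.symm b ∈ φ.source := φ.map_target hbt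
    obtain ⟨k, hk, hkx⟩ := hper
    have hint : ∀ v : V n, 0 < v 0 → φ.symm v ∈ interior (φ.symm '' {v : V n | 0 ≤ v 0}) :=
      fun v hv => mem_int hA le_rfl hv
    -- every point of the half space is in a piece
    have hpiece : ∀ v : V n, 1 / 2 ≤ v 0 → v ∈ Cm n ⌊‖v‖⌋₊ := by
      intro v hv
      exact ⟨hv, Nat.floor_le (norm_nonneg v), (Nat.lt_floor_add_one ‖v‖).le⟩
    have hgs : ∀ v : V n, 1 / 2 ≤ v 0 → g (φ.symm v) ∈ φ.source := by
      intro v hv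
      exact (hg ⌊‖v‖⌋₊ (φ.symm v) ⟨v, hpiece v hv, rfl⟩).1
    have h2i : (2 : WithTop ℕ∞) ≤ ∞ := WithTop.coe_le_coe.mpr le_top
    refine hG (φ ∘ g ∘ φ.symm) ?_ ?_ (φ '' ((range fun m : ℕ => (g : M → M)^[m] (φ.symm b)) ∩ φ.source))
      ?_ ?_ ?_
    · -- C^2
      intro v hv
      have hv' : 1 / 2 < v 0 := hv
      have hvt : v ∈ φ.target := hA (show 0 ≤ v 0 by linarith)
      have h1 : ContMDiffAt (𝓡 n) (𝓡 n) 2 φ.symm v :=
        ((contMDiffOn_symm_of_mem_maximalAtlas hφ v hvt).contMDiffAt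
          (φ.open_target.mem_nhds hvt)).of_le h2i
      have h2 : ContMDiffAt (𝓡 n) (𝓡 n) 2 g (φ.symm v) :=
        (hgs2 _ (hint v (by linarith))).contMDiffAt
          (isOpen_interior.mem_nhds (hint v (by linarith)))
      have h3 : ContMDiffAt (𝓡 n) (𝓡 n) 2 φ (g (φ.symm v)) :=
        ((contMDiffOn_of_mem_maximalAtlas hφ _ (hgs v hv'.le)).contMDiffAt
          (φ.open_source.mem_nhds (hgs v hv'.le))).of_le h2i
      have h4 : ContMDiffAt (𝓡 n) (𝓡 n) 2 (φ ∘ g ∘ φ.symm) v :=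
        ContMDiffAt.comp v (g := φ) (f := g ∘ φ.symm) h3 (ContMDiffAt.comp v h2 h1)
      exact (contMDiffAt_iff_contDiffAt.1 h4).contDiffWithinAt
    · intro v hv i hi
      have hvt : v ∈ φ.target := hA (show 0 ≤ v 0 by linarith)
      have h1 := (hg ⌊‖v‖⌋₊ (φ.symm v) ⟨v, hpiece v hv.le, rfl⟩).2 i hi
      have h2 : e ⌊‖v‖⌋₊ ≤ ε v := he2 _ v (hpiece v hv.le)
      have h3 : iteratedFDeriv ℝ i (φ ∘ f ∘ φ.symm) v = iteratedFDeriv ℝ i (F : V n → V n) v := by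
        apply Filter.EventuallyEq.eq_of_nhds
        apply Filter.EventuallyEq.iteratedFDeriv
        have ho : IsOpen {v : V n | 0 < v 0} := isOpen_lt continuous_const coord_cont
        filter_upwards [ho.mem_nhds (show 0 < v 0 by linarith)] with w hw
        have hw' : 0 ≤ w 0 := le_of_lt hw
        simp only [Function.comp_apply]
        rw [hft w hw', φ.right_inv (hA (F_half F hid hw'))]
      have h4 : ‖iteratedFDeriv ℝ i (φ ∘ g ∘ φ.symm) (φ (φ.symm v))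
          - iteratedFDeriv ℝ i (φ ∘ f ∘ φ.symm) (φ (φ.symm v))‖ < e ⌊‖v‖⌋₊ := h1
      rw [φ.right_inv hvt, h3] at h4
      exact h4.trans_le h2
    · apply Set.Finite.image
      apply Set.Finite.inter_of_left
      have hper : Function.IsPeriodicPt g k (φ.symm b) := hkx
      refine ((Set.finite_lt_nat k).image (fun m : ℕ => (g : M → M)^[m] (φ.symm b))).subset ?_
      rintro _ ⟨m, rfl⟩
      exact ⟨m % k, Nat.mod_lt _ (by omega), hper.iterate_mod_apply m⟩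
    · exact ⟨b, ⟨φ.symm b, ⟨⟨0, rfl⟩, hbs⟩, φ.right_inv hbt⟩, by linarith⟩
    · rintro v ⟨y, ⟨⟨m, rfl⟩, hy⟩, rfl⟩ hv
      simp only at hy hv ⊢
      have h1 := hgs (φ ((g : M → M)^[m] (φ.symm b))) (by linarith)
      rw [φ.left_inv hy] at h1
      refine ⟨g ((g : M → M)^[m] (φ.symm b)), ⟨⟨m + 1, ?_⟩, h1⟩, ?_⟩
      · simp only [Function.iterate_succ_apply']
      · simp only [Function.comp_apply, φ.left_inv hy]

end K4

end Pool.Agent.Y251.CL
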